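import Pool.Agent.helper70.FI3.SpecN3

/-!
# Project fi3, row TRL3: central elements and the projection
-/

set_option autoImplicit false

namespace Pool.Agent.FI3

open Pool.Agent.helper58.DC Pool.Agent.DI Pool.Agent.GR Pool.Agent.OB Pool.Agent.DR Pool.Agent.FI

theorem TRL3 (hQCE : QCE_stmt) (hB2 : B2_stmt) : TRL3_stmt := by
  classical
  intro G _ _ L Z hZL hcen χ hχ
  obtain ⟨n, hn, hn1, -⟩ := ((hB2 G L).2 χ hχ).1
  have h1 : χ 1 ≠ 0 := by
    rw [hn1]
    exact_mod_cast hn.ne'
  have hm : ∀ z ∈ Z, ∀ v, χ (z * v) = χ z / χ 1 * χ v := by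
    intro z hz v
    have h2 := (hQCE G L z (hZL hz) (hcen z hz) χ hχ).1 v
    rw [div_mul_eq_mul_div, eq_div_iff h1]
    exact h2
  refine ⟨?_, ?_⟩
  · intro i z hz g
    unfold ev
    rw [mul_finsum]
    refine finsum_congr fun x => ?_
    rw [mul_assoc z g x, hm z hz]
    ring
  · intro l
    have : Fintype Z := Fintype.ofFinite Z
    let f : Z →* ℂ :=
      { toFun := fun z => ((l z : ℂ))⁻¹ * (χ z / χ 1)
        map_one' := by simp [h1]
        map_mul' := by
          intro a b
          have h2 := hm a a.2 b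
          simp only [map_mul, Units.val_mul, Subgroup.coe_mul, h2, mul_inv]
          ring }
    have hf : ∀ z, f z = ((l z : ℂ))⁻¹ * (χ z / χ 1) := fun z => rfl
    have e1 : ∑ᶠ z : Z, ((l z : ℂ))⁻¹ * (χ z / χ 1) = ∑ z : Z, f z := by
      rw [finsum_eq_sum_of_fintype]
      rfl
    have e2 : f = 1 ↔ ∀ z : Z, χ z = (l z : ℂ) * χ 1 := by
      constructor
      · intro h z
        have h3 := DFunLike.congr_fun h z
        rw [hf, MonoidHom.one_apply, inv_mul_eq_iff_eq_mul₀ (Units.ne_zero _), mul_one, div_eq_iff h1] at h3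
        exact h3
      · intro h
        ext z
        rw [hf, MonoidHom.one_apply, inv_mul_eq_iff_eq_mul₀ (Units.ne_zero _), mul_one, div_eq_iff h1]
        exact h z
    rw [e1, sum_hom_units f, Nat.card_eq_fintype_card]
    by_cases h : f = 1
    · rw [if_pos h, if_pos (e2.1 h)]
    · rw [if_neg h, if_neg (fun h' => h (e2.2 h')), Nat.cast_zero]

end Pool.Agent.FI3
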